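import Pool.Agent.H56.QC.Cut
import Pool.Agent.H33.QC.Loc

set_option autoImplicit false

namespace Pool.Agent.H56.QC

open MeasureTheory Set Filter Topology Metric
open scoped RealInnerProductSpace ENNReal

variable {n : ℕ}

/-- common core: `V` is the set of minima together with the optional outer point `o`. -/
theorem morse_core (g : E n → ℝ) (F : E n → E n)
    (hg : ∀ x, HasGradientAt g (F x) x) (hF : ContDiff ℝ 1 F) (hfin : {x | F x = 0}.Finite)
    (hd : ∀ x, F x = 0 → (fderiv ℝ F x).det ≠ 0)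
    (Mi Sa : Finset (E n)) (hMi : ∀ x, x ∈ Mi ↔ (F x = 0 ∧ Pos0 (fderiv ℝ F x)))
    (hSa : ∀ x, x ∈ Sa ↔ (F x = 0 ∧ Pos1 (fderiv ℝ F x) ∧ ¬ Pos0 (fderiv ℝ F x)))
    (V : Finset (E n)) (hMV : Mi ⊆ V) (o : E n) (hVo : V ⊆ insert o Mi)
    (hgo : o ∈ V → o ∉ Mi → ∀ x, F x = 0 → g o < g x)
    (hreach : ∀ s ∈ Sa, ∀ a, g a < g s → ∃ v ∈ V, JoinedIn {z | g z < g s} a v)
    (hbd : ∀ A ⊆ Mi, ∀ c, (∀ a ∈ A, ∀ b ∈ V \ A, ¬ JoinedIn {z | g z < c} a b) →
      Bornology.IsBounded {z | ∃ a ∈ A, JoinedIn {z | g z < c} z a}) :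
    V.card ≤ Sa.card + 1 := by
  classical
  have hgc : Continuous g := continuous_iff_continuousAt.2 (fun x => (hg x).continuousAt)
  have hmin : ∀ x, IsLocalMin g x → x ∈ {x | F x = 0} := by
    intro x hm
    have h1 := hm.hasFDerivAt_eq_zero (hg x).hasFDerivAt
    have h2 : F x = 0 := by
      have := congrArg (InnerProductSpace.toDual ℝ (E n)).symm h1
      simpa using this
    exact h2
  -- the two sides of a saddle
  have hsad : ∀ s : E n, ∃ p q : E n, s ∈ Sa → (g p < g s ∧ g q < g s ∧ ∃ N ∈ 𝓝 s, ∀ a ∈ N,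
      g a < g s → JoinedIn {z | g z < g s} a p ∨ JoinedIn {z | g z < g s} a q) := by
    intro s
    by_cases hs : s ∈ Sa
    · obtain ⟨h1, h2, h3⟩ := (hSa s).1 hs
      obtain ⟨N, hN, p, q, hp, hq, h⟩ := lc_index1 g F hg hF s h1 (hd s h1) h2 h3
      exact ⟨p, q, fun _ => ⟨hp, hq, N, hN, h⟩⟩
    · exact ⟨s, s, fun h => absurd h hs⟩
  choose p1 p2 hp using hsad
  have hq1 : ∀ s : E n, ∃ v, s ∈ Sa → v ∈ V ∧ JoinedIn {z | g z < g s} (p1 s) v := by
    intro s
    by_cases hs : s ∈ Sa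
    · obtain ⟨v, hv, h⟩ := hreach s hs (p1 s) (hp s hs).1
      exact ⟨v, fun _ => ⟨hv, h⟩⟩
    · exact ⟨s, fun h => absurd h hs⟩
  have hq2 : ∀ s : E n, ∃ v, s ∈ Sa → v ∈ V ∧ JoinedIn {z | g z < g s} (p2 s) v := by
    intro s
    by_cases hs : s ∈ Sa
    · obtain ⟨v, hv, h⟩ := hreach s hs (p2 s) (hp s hs).2.1
      exact ⟨v, fun _ => ⟨hv, h⟩⟩
    · exact ⟨s, fun h => absurd h hs⟩
  choose q1 hq1 using hq1
  choose q2 hq2 using hq2
  have hLC : ∀ x, x ∉ (Sa : Set (E n)) → ∃ N ∈ 𝓝 x, ∀ a ∈ N, ∀ b ∈ N, g a < g x → g b < g x →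
      JoinedIn {z | g z < g x} a b := by
    intro x hx
    by_cases hFx : F x = 0
    · by_cases h1 : Pos1 (fderiv ℝ F x)
      · by_cases h0 : Pos0 (fderiv ℝ F x)
        · obtain ⟨r, hr, h⟩ := lc_index0 g F hg hF x hFx h0
          refine ⟨ball x r, ball_mem_nhds x hr, ?_⟩
          intro a ha b hb hga
          exfalso
          by_cases hax : a = x
          · rw [hax] at hga; exact lt_irrefl _ hga
          · have := h a hax (by rw [← dist_eq_norm]; exact le_of_lt ha)
            linarith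
        · exact absurd ((hSa x).2 ⟨hFx, h1, h0⟩) hx
      · exact lc_index2 g F hg hF x hFx (hd x hFx) h1
    · exact lc_regular g F hg hF x hFx
  have hSa' : ∀ x ∈ (Sa : Set (E n)), ∃ N ∈ 𝓝 x, ∀ a ∈ N, g a < g x →
      JoinedIn {z | g z < g x} a (p1 x) ∨ JoinedIn {z | g z < g x} a (p2 x) := by
    intro x hx
    exact (hp x hx).2.2
  have hMs : ∀ a ∈ Mi, ∃ r > 0, ∀ z, z ≠ a → ‖z - a‖ ≤ r → g a < g z := by
    intro a ha
    obtain ⟨h1, h2⟩ := (hMi a).1 ha
    exact lc_index0 g F hg hF a h1 h2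
  -- cut property for a set of minima
  have hcutM : ∀ A ⊆ Mi, A.Nonempty → (V \ A).Nonempty →
      ∃ s ∈ Sa, (q1 s ∈ A ∧ q2 s ∈ V \ A) ∨ (q2 s ∈ A ∧ q1 s ∈ V \ A) := by
    intro A hAM hA hB
    obtain ⟨s, hs, hno, hcase⟩ := cut_exists g hgc {x | F x = 0} hfin hmin (Sa : Set (E n)) p1 p2
      hLC hSa' A (V \ A) hA hB Finset.disjoint_sdiff (fun a ha => hMs a (hAM ha)) (by
        intro b hb
        have hbV := (Finset.mem_sdiff.1 hb).1
        by_cases hbM : b ∈ Mi
        · exact Or.inl (hMs b hbM)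
        · right
          have hbo : b = o := by
            rcases Finset.mem_insert.1 (hVo hbV) with h | h
            · exact h
            · exact absurd h hbM
          intro a ha
          rw [hbo]
          exact hgo (hbo ▸ hbV) (hbo ▸ hbM) a ((hMi a).1 (hAM ha)).1) (hbd A hAM)
    have hsS : s ∈ Sa := hs
    obtain ⟨hv1, hj1⟩ := hq1 s hsS
    obtain ⟨hv2, hj2⟩ := hq2 s hsS
    refine ⟨s, hsS, ?_⟩
    rcases hcase with ⟨⟨a, ha, hj⟩, hn⟩ | ⟨⟨a, ha, hj⟩, hn⟩
    · left
      constructor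
      · by_contra hq
        exact hno a ha (q1 s) (Finset.mem_sdiff.2 ⟨hv1, hq⟩) (hj.symm.trans hj1)
      · refine Finset.mem_sdiff.2 ⟨hv2, fun hq => hn ⟨q2 s, hq, hj2⟩⟩
    · right
      constructor
      · by_contra hq
        exact hno a ha (q2 s) (Finset.mem_sdiff.2 ⟨hv2, hq⟩) (hj.symm.trans hj2)
      · refine Finset.mem_sdiff.2 ⟨hv1, fun hq => hn ⟨q1 s, hq, hj1⟩⟩
  refine count_cut V Sa q1 q2 ?_
  intro A hAV hA hB
  by_cases hAM : A ⊆ Mi
  · exact hcutM A hAM hA hB
  · -- then `o ∈ A`, and `V \ A ⊆ Mi`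
    have hoA : o ∈ A ∧ o ∉ Mi := by
      obtain ⟨x, hx, hxM⟩ := Finset.not_subset.1 hAM
      rcases Finset.mem_insert.1 (hVo (hAV hx)) with h | h
      · exact ⟨h ▸ hx, h ▸ hxM⟩
      · exact absurd h hxM
    have hBM : V \ A ⊆ Mi := by
      intro x hx
      obtain ⟨hxV, hxA⟩ := Finset.mem_sdiff.1 hx
      rcases Finset.mem_insert.1 (hVo hxV) with h | h
      · exact absurd (h ▸ hoA.1) hxA
      · exact h
    have hVV : V \ (V \ A) = A := by
      exact Finset.sdiff_sdiff_eq_self hAV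
    obtain ⟨s, hs, h⟩ := hcutM (V \ A) hBM hB (by rw [hVV]; exact hA)
    rw [hVV] at h
    refine ⟨s, hs, ?_⟩
    rcases h with h | h
    · exact Or.inr ⟨h.2, h.1⟩
    · exact Or.inl ⟨h.2, h.1⟩

/-- A point of a bounded component of `{g < c}` is joined to a local minimum. -/
theorem reach_min (g : E n → ℝ) (F : E n → E n)
    (hg : ∀ x, HasGradientAt g (F x) x) (hF : ContDiff ℝ 1 F)
    (hd : ∀ x, F x = 0 → (fderiv ℝ F x).det ≠ 0) (c : ℝ) (a : E n) (ha : g a < c)
    (hb : Bornology.IsBounded {z | JoinedIn {z | g z < c} a z}) :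
    ∃ v, (F v = 0 ∧ Pos0 (fderiv ℝ F v)) ∧ JoinedIn {z | g z < c} a v := by
  have hgc : Continuous g := continuous_iff_continuousAt.2 (fun x => (hg x).continuousAt)
  set U : Set (E n) := {z | JoinedIn {z | g z < c} a z} with hU
  have haU : a ∈ U := JoinedIn.refl ha
  obtain ⟨v, hv, hvm⟩ := hb.isCompact_closure.exists_isMinOn ⟨a, subset_closure haU⟩
    hgc.continuousOn
  have hva : g v ≤ g a := hvm (subset_closure haU)
  have hvc : g v < c := by linarith
  have hopen : IsOpen {z | g z < c} := isOpen_lt hgc continuous_const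
  obtain ⟨r, hr, hball⟩ := Metric.isOpen_iff.1 hopen v hvc
  obtain ⟨z, hz, hzU⟩ := mem_closure_iff_nhds.1 hv _ (ball_mem_nhds v hr)
  have hjv : JoinedIn {z | g z < c} a v :=
    JoinedIn.trans hzU (joined_ball _ v r hball z v hz (mem_ball_self hr))
  have hm : IsLocalMin g v := by
    filter_upwards [ball_mem_nhds v hr] with y hy
    have hyU : y ∈ U := hjv.trans (joined_ball _ v r hball v y (mem_ball_self hr) hy)
    exact hvm (subset_closure hyU)
  have hF0 : F v = 0 := by
    have h1 := hm.hasFDerivAt_eq_zero (hg v).hasFDerivAt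
    have := congrArg (InnerProductSpace.toDual ℝ (E n)).symm h1
    simpa using this
  exact ⟨v, pos0_of_isLocalMin g F hg hF v (hd v hF0) hm, hjv⟩

theorem morse_plus (hn : 2 ≤ n) (g : E n → ℝ) (F : E n → E n)
    (hg : ∀ x, HasGradientAt g (F x) x) (hF : ContDiff ℝ 1 F) (hfin : {x | F x = 0}.Finite)
    (hd : ∀ x, F x = 0 → (fderiv ℝ F x).det ≠ 0) (hinf : Tendsto g (cocompact (E n)) atTop) :
    {x | F x = 0 ∧ Pos0 (fderiv ℝ F x)}.ncard ≤
      {x | F x = 0 ∧ Pos1 (fderiv ℝ F x) ∧ ¬ Pos0 (fderiv ℝ F x)}.ncard + 1 := by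
  classical
  have hM : {x | F x = 0 ∧ Pos0 (fderiv ℝ F x)}.Finite := hfin.subset (fun x hx => hx.1)
  have hS : {x | F x = 0 ∧ Pos1 (fderiv ℝ F x) ∧ ¬ Pos0 (fderiv ℝ F x)}.Finite :=
    hfin.subset (fun x hx => hx.1)
  have hsub : ∀ c : ℝ, Bornology.IsBounded {z | g z < c} := by
    intro c
    have h1 : ∀ᶠ z in cocompact (E n), c ≤ g z := hinf.eventually_ge_atTop c
    rw [← Metric.cobounded_eq_cocompact] at h1
    have h2 : Bornology.IsBounded {z | c ≤ g z}ᶜ := by
      rw [Bornology.isBounded_def, compl_compl]; exact h1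
    refine h2.subset ?_
    intro z hz hz'
    have hz1 : g z < c := hz
    have hz2 : c ≤ g z := hz'
    linarith
  have key := morse_core g F hg hF hfin hd hM.toFinset hS.toFinset
    (fun x => by simp) (fun x => by simp) hM.toFinset (Finset.Subset.refl _) 0
    (Finset.subset_insert _ _) (fun h1 h2 => absurd h1 h2)
    (by
      intro s hs a ha
      obtain ⟨v, hv, hj⟩ := reach_min g F hg hF hd (g s) a ha
        ((hsub (g s)).subset (fun z hz => JoinedIn.target_mem hz))
      exact ⟨v, by simpa using hv, hj⟩)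
    (by
      intro A hA c h
      refine (hsub c).subset ?_
      rintro z ⟨a, ha, hj⟩
      exact hj.source_mem)
  rw [Set.ncard_eq_toFinset_card _ hM, Set.ncard_eq_toFinset_card _ hS]
  exact key

theorem morse_minus (hn : 2 ≤ n) (g : E n → ℝ) (F : E n → E n)
    (hg : ∀ x, HasGradientAt g (F x) x) (hF : ContDiff ℝ 1 F) (hfin : {x | F x = 0}.Finite)
    (hd : ∀ x, F x = 0 → (fderiv ℝ F x).det ≠ 0) (hinf : Tendsto g (cocompact (E n)) atBot) :
    {x | F x = 0 ∧ Pos0 (fderiv ℝ F x)}.ncard ≤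
      {x | F x = 0 ∧ Pos1 (fderiv ℝ F x) ∧ ¬ Pos0 (fderiv ℝ F x)}.ncard := by
  classical
  have hgc : Continuous g := continuous_iff_continuousAt.2 (fun x => (hg x).continuousAt)
  have hM : {x | F x = 0 ∧ Pos0 (fderiv ℝ F x)}.Finite := hfin.subset (fun x hx => hx.1)
  have hS : {x | F x = 0 ∧ Pos1 (fderiv ℝ F x) ∧ ¬ Pos0 (fderiv ℝ F x)}.Finite :=
    hfin.subset (fun x hx => hx.1)
  -- a level below all the critical values
  obtain ⟨m0, hm0⟩ : ∃ m0 : ℝ, ∀ x, F x = 0 → m0 < g x := by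
    rcases {x | F x = 0}.eq_empty_or_nonempty with he | hne
    · refine ⟨0, fun x hx => ?_⟩
      have : x ∈ {x | F x = 0} := hx
      rw [he] at this
      exact absurd this (by simp)
    · obtain ⟨x0, hx0, hx0m⟩ := Set.exists_min_image _ g hfin hne
      refine ⟨g x0 - 1, fun x hx => ?_⟩
      have h1 : g x0 ≤ g x := hx0m x hx
      linarith
  obtain ⟨R, hR⟩ : ∃ R : ℝ, ∀ x : E n, R ≤ ‖x‖ → g x < m0 := by
    have h1 : ∀ᶠ z in cocompact (E n), g z < m0 := hinf.eventually_lt_atBot m0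
    rw [← Metric.cobounded_eq_cocompact] at h1
    have h2 : Bornology.IsBounded {z : E n | g z < m0}ᶜ :=
      by
      rw [Bornology.isBounded_def, compl_compl]; exact h1
    obtain ⟨R, hR⟩ := h2.subset_closedBall 0
    refine ⟨R + 1, fun x hx => ?_⟩
    by_contra hcon
    have h3 : x ∈ closedBall (0 : E n) R := hR hcon
    rw [mem_closedBall_zero_iff] at h3
    linarith
  -- the outer point
  have hfr : 1 < Module.rank ℝ (E n) := by
    rw [← Module.finrank_eq_rank]
    simp only [finrank_euclideanSpace, Fintype.card_fin]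
    exact_mod_cast (by omega : 1 < n)
  have hRn : (0:ℝ) ≤ max R 1 := le_trans zero_le_one (le_max_right _ _)
  have : Nontrivial (E n) := by
    have : Nonempty (Fin n) := ⟨⟨0, by omega⟩⟩
    infer_instance
  obtain ⟨o, ho⟩ : ∃ o : E n, ‖o‖ = max R 1 := by
    obtain ⟨o, ho⟩ := (NormedSpace.sphere_nonempty (x := (0 : E n)) (r := max R 1)).2 hRn
    exact ⟨o, by simpa using ho⟩
  have hgo : g o < m0 := hR o (by rw [ho]; exact le_max_left _ _)
  -- every far point is joined to o at every level ≥ m0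
  have hfar : ∀ c, m0 ≤ c → ∀ z : E n, max R 1 ≤ ‖z‖ → JoinedIn {z | g z < c} z o := by
    intro c hc z hz
    have hz0 : 0 < ‖z‖ := lt_of_lt_of_le (by positivity) hz
    have hsub : {z : E n | max R 1 ≤ ‖z‖} ⊆ {z | g z < c} := by
      intro y hy
      exact lt_of_lt_of_le (hR y ((le_max_left _ _).trans hy)) hc
    set z' : E n := (max R 1 / ‖z‖) • z with hz'
    have hz'n : ‖z'‖ = max R 1 := by
      rw [hz', norm_smul, Real.norm_of_nonneg (div_nonneg hRn hz0.le)]
      field_simp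
    have h1 : JoinedIn {z : E n | max R 1 ≤ ‖z‖} z z' := by
      refine JoinedIn.of_segment_subset ?_
      intro y hy
      obtain ⟨s, t, hs, ht, hst, rfl⟩ := hy
      have h2 : s • z + t • z' = (s + t * (max R 1 / ‖z‖)) • z := by
        rw [hz', smul_smul, add_smul]
      rw [mem_ofPred_eq, h2, norm_smul, Real.norm_of_nonneg
        (add_nonneg hs (mul_nonneg ht (div_nonneg hRn hz0.le)))]
      rw [add_mul, mul_assoc, div_mul_cancel₀ _ hz0.ne']
      calc max R 1 = s * max R 1 + t * max R 1 := by rw [← add_mul, hst, one_mul]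
        _ ≤ s * ‖z‖ + t * max R 1 := by gcongr
    have h2 : JoinedIn (sphere (0 : E n) (max R 1)) z' o :=
      (isPathConnected_sphere hfr (0 : E n) hRn).joinedIn z' (by simpa using hz'n) o
        (by simpa using ho)
    have h3 : sphere (0 : E n) (max R 1) ⊆ {z : E n | max R 1 ≤ ‖z‖} := by
      intro y hy
      have : ‖y‖ = max R 1 := by simpa using hy
      rw [mem_ofPred_eq, this]
    exact (h1.trans (h2.mono h3)).mono hsub
  have hoM : o ∉ hM.toFinset := by
    intro h
    have h1 : F o = 0 := by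
      have : F o = 0 ∧ Pos0 (fderiv ℝ F o) := by simpa using h
      exact this.1
    have := hm0 o h1
    linarith
  have key := morse_core g F hg hF hfin hd hM.toFinset hS.toFinset
    (fun x => by simp) (fun x => by simp) (insert o hM.toFinset) (Finset.subset_insert _ _) o
    (Finset.Subset.refl _) (fun h1 h2 x hx => hgo.trans (hm0 x hx))
    (by
      intro s hs a ha
      have hs0 : F s = 0 := by
        have : F s = 0 ∧ Pos1 (fderiv ℝ F s) ∧ ¬ Pos0 (fderiv ℝ F s) := by simpa using hs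
        exact this.1
      by_cases hb : Bornology.IsBounded {z | JoinedIn {z | g z < g s} a z}
      · obtain ⟨v, hv, hj⟩ := reach_min g F hg hF hd (g s) a ha hb
        exact ⟨v, Finset.mem_insert_of_mem (by simpa using hv), hj⟩
      · refine ⟨o, Finset.mem_insert_self _ _, ?_⟩
        have : ∃ z ∈ {z | JoinedIn {z | g z < g s} a z}, max R 1 ≤ ‖z‖ := by
          by_contra hcon
          push Not at hcon
          apply hb
          refine (isBounded_closedBall (x := (0 : E n)) (r := max R 1)).subset ?_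
          intro z hz
          rw [mem_closedBall_zero_iff]
          exact (hcon z hz).le
        obtain ⟨z, hz, hzR⟩ := this
        exact JoinedIn.trans hz (hfar (g s) (hm0 s hs0).le z hzR))
    (by
      intro A hA c h
      rcases A.eq_empty_or_nonempty with hAe | ⟨a1, ha1⟩
      · simp [hAe]
      by_contra hcon
      have : ∃ z ∈ {z | ∃ a ∈ A, JoinedIn {z | g z < c} z a}, max R 1 ≤ ‖z‖ := by
        by_contra hcon'
        push Not at hcon'
        apply hcon
        refine (isBounded_closedBall (x := (0 : E n)) (r := max R 1)).subset ?_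
        intro z hz
        rw [mem_closedBall_zero_iff]
        exact (hcon' z hz).le
      obtain ⟨z, ⟨a, ha, hj⟩, hzR⟩ := this
      have hga : g a < c := hj.target_mem
      have ha0 : F a = 0 := by
        have : F a = 0 ∧ Pos0 (fderiv ℝ F a) := by simpa using hA ha
        exact this.1
      have hmc : m0 ≤ c := (hm0 a ha0).le.trans hga.le
      refine h a ha o ?_ (hj.symm.trans (hfar c hmc z hzR))
      refine Finset.mem_sdiff.2 ⟨Finset.mem_insert_self _ _, fun hoA => hoM (hA hoA)⟩)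
  rw [Set.ncard_eq_toFinset_card _ hM, Set.ncard_eq_toFinset_card _ hS]
  rw [Finset.card_insert_of_notMem hoM] at key
  omega

end Pool.Agent.H56.QC
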