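import Pool.Agent.H56.QC.Defs

set_option autoImplicit false

namespace Pool.Agent.H56.QC

open MeasureTheory Set Filter Topology Metric
open scoped RealInnerProductSpace ENNReal

variable {n : ℕ}

/-- Prim's algorithm. -/
theorem count_cut {α β : Type*} [DecidableEq α] [DecidableEq β] (V : Finset α) (S : Finset β)
    (q1 q2 : β → α)
    (hcut : ∀ A ⊆ V, A.Nonempty → (V \ A).Nonempty →
      ∃ s ∈ S, (q1 s ∈ A ∧ q2 s ∈ V \ A) ∨ (q2 s ∈ A ∧ q1 s ∈ V \ A)) :
    V.card ≤ S.card + 1 := by
  rcases V.eq_empty_or_nonempty with hV | hV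
  · simp [hV]
  have key : ∀ k : ℕ, k + 1 ≤ V.card → ∃ A ⊆ V, ∃ T ⊆ S, A.card = k + 1 ∧ T.card = k ∧
      ∀ s ∈ T, q1 s ∈ A ∧ q2 s ∈ A := by
    intro k
    induction k with
    | zero =>
      intro _
      obtain ⟨v, hv⟩ := hV
      exact ⟨{v}, by simpa using hv, ∅, by simp, by simp, by simp, by simp⟩
    | succ k ih =>
      intro hk
      obtain ⟨A, hA, T, hT, hAc, hTc, hAT⟩ := ih (by omega)
      have h1 : A.Nonempty := by rw [← Finset.card_pos]; omega
      have h2 : (V \ A).Nonempty := by
        rw [← Finset.card_pos, Finset.card_sdiff_of_subset hA]; omega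
      obtain ⟨s, hs, hs'⟩ := hcut A hA h1 h2
      have hsT : s ∉ T := by
        intro hsT
        have := hAT s hsT
        rcases hs' with h | h
        · exact (Finset.mem_sdiff.1 h.2).2 this.2
        · exact (Finset.mem_sdiff.1 h.2).2 this.1
      rcases hs' with h | h
      · refine ⟨insert (q2 s) A, ?_, insert s T, ?_, ?_, ?_, ?_⟩
        · exact Finset.insert_subset (Finset.mem_sdiff.1 h.2).1 hA
        · exact Finset.insert_subset hs hT
        · rw [Finset.card_insert_of_notMem (Finset.mem_sdiff.1 h.2).2, hAc]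
        · rw [Finset.card_insert_of_notMem hsT, hTc]
        · intro t ht
          rcases Finset.mem_insert.1 ht with rfl | ht
          · exact ⟨Finset.mem_insert_of_mem h.1, Finset.mem_insert_self _ _⟩
          · exact ⟨Finset.mem_insert_of_mem (hAT t ht).1, Finset.mem_insert_of_mem (hAT t ht).2⟩
      · refine ⟨insert (q1 s) A, ?_, insert s T, ?_, ?_, ?_, ?_⟩
        · exact Finset.insert_subset (Finset.mem_sdiff.1 h.2).1 hA
        · exact Finset.insert_subset hs hT
        · rw [Finset.card_insert_of_notMem (Finset.mem_sdiff.1 h.2).2, hAc]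
        · rw [Finset.card_insert_of_notMem hsT, hTc]
        · intro t ht
          rcases Finset.mem_insert.1 ht with rfl | ht
          · exact ⟨Finset.mem_insert_self _ _, Finset.mem_insert_of_mem h.1⟩
          · exact ⟨Finset.mem_insert_of_mem (hAT t ht).1, Finset.mem_insert_of_mem (hAT t ht).2⟩
  have hpos : 0 < V.card := Finset.card_pos.2 hV
  obtain ⟨A, hA, T, hT, hAc, hTc, -⟩ := key (V.card - 1) (by omega)
  have := Finset.card_le_card hT
  omega

/-- A path which starts at `a` with `f a < t` and ends at `b` with `t ≤ f b` meets `f = t`. -/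
theorem joined_cross {X : Type*} [TopologicalSpace X] (f : X → ℝ) (hf : Continuous f)
    (O : Set X) (a b : X) (h : JoinedIn O a b) (t : ℝ) (ha : f a ≤ t) (hb : t ≤ f b) :
    ∃ z ∈ O, f z = t := by
  have hc : Continuous (fun s : unitInterval => f (h.somePath s)) :=
    hf.comp h.somePath.continuous
  have h1 : f (h.somePath 0) ≤ t := by simpa using ha
  have h2 : t ≤ f (h.somePath 1) := by simpa using hb
  obtain ⟨s, hs⟩ := mem_range_of_exists_le_of_exists_ge hc ⟨0, h1⟩ ⟨1, h2⟩
  exact ⟨h.somePath s, h.somePath_mem s, hs⟩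

/-- Joined in `{g < c}` implies joined in `{g < c'}` for some `c' < c`. -/
theorem joined_lower {X : Type*} [TopologicalSpace X] (g : X → ℝ) (hg : Continuous g)
    (a b : X) (c : ℝ) (h : JoinedIn {z | g z < c} a b) :
    ∃ c' < c, JoinedIn {z | g z < c'} a b := by
  have hc : Continuous (fun s : unitInterval => g (h.somePath s)) :=
    hg.comp h.somePath.continuous
  obtain ⟨s, -, hs⟩ := isCompact_univ.exists_isMaxOn (univ_nonempty (α := unitInterval))
    hc.continuousOn
  have hs1 : g (h.somePath s) < c := h.somePath_mem s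
  refine ⟨(g (h.somePath s) + c) / 2, by linarith, ⟨h.somePath, fun t => ?_⟩⟩
  have := hs (mem_univ t)
  simp only [mem_ofPred_eq] at this ⊢
  linarith

theorem stay (g : E n → ℝ) (hgc : Continuous g) (c : ℝ) (U W : Set (E n))
    (hU : Bornology.IsBounded U) (hlt : {z | g z < c} ⊆ U ∪ W)
    (hdisj : Disjoint (closure U) (closure W)) (C : Set (E n)) (hC : C.Finite)
    (hmin : ∀ x, IsLocalMin g x → x ∈ C) :
    ∀ᶠ c' in 𝓝[>] c, ∀ a ∈ U, ∀ b ∈ W, ¬ JoinedIn {z | g z < c'} a b := by
  rcases U.eq_empty_or_nonempty with hUe | hUn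
  · exact Eventually.of_forall (fun c' a ha => by simp [hUe] at ha)
  have hK : IsCompact (closure U) := hU.isCompact_closure
  have hKn : (closure U).Nonempty := hUn.closure
  obtain ⟨d, hd, hdd⟩ := hdisj.exists_thickenings hK isClosed_closure
  have hinf : (Ioo 0 d \ ((fun x => infDist x (closure U)) '' C)).Nonempty := by
    have h1 : (Ioo 0 d).Infinite := Ioo_infinite hd
    exact (h1.sdiff (hC.image _)).nonempty
  obtain ⟨d', ⟨hd0, hdlt⟩, hd'⟩ := hinf
  set D : Set (E n) := {x | infDist x (closure U) = d'} with hD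
  have hDc : IsCompact D := by
    refine Metric.isCompact_of_isClosed_isBounded ?_ ?_
    · exact isClosed_eq (continuous_infDist_pt _) continuous_const
    · refine (hK.isBounded.cthickening (δ := d')).subset ?_
      intro x hx
      rw [cthickening_eq_preimage_infEDist]
      simp only [mem_preimage, mem_Iic]
      have h1 : infDist x (closure U) = d' := hx
      rw [infDist] at h1
      rw [← h1, ENNReal.ofReal_toReal (infEDist_ne_top hKn)]
  have hDg : ∀ x ∈ D, c < g x := by
    intro x hx
    have hxU : x ∉ closure U := by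
      intro h
      have := infDist_zero_of_mem h
      rw [hD, mem_ofPred_eq] at hx
      linarith
    have hxW : x ∉ closure W := by
      intro h
      have h1 : x ∈ thickening d (closure U) := by
        rw [mem_thickening_iff_infDist_lt hKn]
        rw [hD, mem_ofPred_eq] at hx
        linarith
      exact (Set.disjoint_left.1 hdd h1) (self_subset_thickening hd _ h)
    have hnh : ∀ᶠ z in 𝓝 x, c ≤ g z := by
      have h1 : (closure U)ᶜ ∩ (closure W)ᶜ ∈ 𝓝 x :=
        (isClosed_closure.isOpen_compl.inter isClosed_closure.isOpen_compl).mem_nhds ⟨hxU, hxW⟩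
      filter_upwards [h1] with z hz
      by_contra hlt'
      push Not at hlt'
      rcases hlt hlt' with h | h
      · exact hz.1 (subset_closure h)
      · exact hz.2 (subset_closure h)
    have hge : c ≤ g x := hnh.self_of_nhds
    rcases hge.lt_or_eq with h | h
    · exact h
    · exfalso
      have hm : IsLocalMin g x := by
        filter_upwards [hnh] with z hz
        rw [← h]; exact hz
      exact hd' ⟨x, hmin x hm, hx⟩
  obtain ⟨m, hm, hmD⟩ : ∃ m > c, ∀ x ∈ D, m ≤ g x := by
    rcases D.eq_empty_or_nonempty with he | hne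
    · exact ⟨c + 1, by linarith, fun x hx => by simp [he] at hx⟩
    · obtain ⟨x0, hx0, hx0m⟩ := hDc.exists_isMinOn hne hgc.continuousOn
      exact ⟨g x0, hDg x0 hx0, fun x hx => hx0m hx⟩
  filter_upwards [Ioo_mem_nhdsGT hm] with c' hc' a ha b hb hj
  have ha0 : infDist a (closure U) ≤ d' := by
    rw [infDist_zero_of_mem (subset_closure ha)]; exact hd0.le
  have hb0 : d' ≤ infDist b (closure U) := by
    by_contra hlt'
    push Not at hlt'
    have h1 : b ∈ thickening d (closure U) := by
      rw [mem_thickening_iff_infDist_lt hKn]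
      linarith
    exact (Set.disjoint_left.1 hdd h1) (self_subset_thickening hd _ (subset_closure hb))
  obtain ⟨z, hz, hz'⟩ := joined_cross (fun x => infDist x (closure U))
    (continuous_infDist_pt _) _ a b hj d' ha0 hb0
  have := hmD z hz'
  have h2 : g z < c' := hz
  have h3 := hc'.2
  linarith

end Pool.Agent.H56.QC
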