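import Pool.Agent.H56.QC.Count

set_option autoImplicit false

namespace Pool.Agent.H56.QC

open MeasureTheory Set Filter Topology Metric
open scoped RealInnerProductSpace ENNReal

variable {n : ℕ}

theorem joined_ball (O : Set (E n)) (x : E n) (r : ℝ) (h : ball x r ⊆ O) (a b : E n)
    (ha : a ∈ ball x r) (hb : b ∈ ball x r) : JoinedIn O a b :=
  (((convex_ball x r).isPathConnected ⟨a, ha⟩).joinedIn a ha b hb).mono h

theorem strict_sep (g : E n → ℝ) (hgc : Continuous g) (a b : E n) (r : ℝ) (hr : 0 < r)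
    (hs : ∀ z, z ≠ a → ‖z - a‖ ≤ r → g a < g z) (hab : b ≠ a) (c : ℝ) (hc : c ≤ g a) :
    ∀ᶠ c' in 𝓝[>] c, ¬ JoinedIn {z | g z < c'} a b := by
  rcases hc.lt_or_eq with hc | hc
  · filter_upwards [Ioo_mem_nhdsGT hc] with c' hc' hj
    have h1 : g a < c' := hj.source_mem
    have := hc'.2
    linarith
  · have hba : 0 < ‖b - a‖ := by
      rw [norm_pos_iff]; exact sub_ne_zero.2 hab
    set r' := min r ‖b - a‖ with hr'
    have hr'0 : 0 < r' := lt_min hr hba
    obtain ⟨m, hm, hmD⟩ : ∃ m > c, ∀ x ∈ sphere a r', m ≤ g x := by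
      rcases (sphere a r').eq_empty_or_nonempty with he | hne
      · exact ⟨c + 1, by linarith, fun x hx => by simp [he] at hx⟩
      · obtain ⟨x0, hx0, hx0m⟩ := (isCompact_sphere a r').exists_isMinOn hne hgc.continuousOn
        have hx1 : ‖x0 - a‖ = r' := by rw [← dist_eq_norm]; exact hx0
        refine ⟨g x0, ?_, fun x hx => hx0m hx⟩
        rw [hc]
        refine hs x0 ?_ (by rw [hx1]; exact min_le_left _ _)
        intro h
        rw [h, sub_self, norm_zero] at hx1
        linarith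
    filter_upwards [Ioo_mem_nhdsGT hm] with c' hc' hj
    obtain ⟨z, hz, hz'⟩ := joined_cross (fun x => ‖x - a‖)
      (by fun_prop) _ a b hj r' (by simpa using hr'0.le) (min_le_right _ _)
    have h1 : m ≤ g z := hmD z (by rw [mem_sphere, dist_eq_norm]; exact hz')
    have h2 : g z < c' := hz
    have h3 := hc'.2
    linarith

theorem cut_exists (g : E n → ℝ) (hgc : Continuous g) (C : Set (E n)) (hC : C.Finite)
    (hmin : ∀ x, IsLocalMin g x → x ∈ C) (Sa : Set (E n)) (p1 p2 : E n → E n)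
    (hLC : ∀ x, x ∉ Sa → ∃ N ∈ 𝓝 x, ∀ a ∈ N, ∀ b ∈ N, g a < g x → g b < g x →
      JoinedIn {z | g z < g x} a b)
    (hSa : ∀ x ∈ Sa, ∃ N ∈ 𝓝 x, ∀ a ∈ N, g a < g x →
      JoinedIn {z | g z < g x} a (p1 x) ∨ JoinedIn {z | g z < g x} a (p2 x))
    (A B : Finset (E n)) (hA : A.Nonempty) (hB : B.Nonempty) (hAB : Disjoint A B)
    (hAs : ∀ a ∈ A, ∃ r > 0, ∀ z, z ≠ a → ‖z - a‖ ≤ r → g a < g z)
    (hBs : ∀ b ∈ B, (∃ r > 0, ∀ z, z ≠ b → ‖z - b‖ ≤ r → g b < g z) ∨ ∀ a ∈ A, g b < g a)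
    (hbd : ∀ c, (∀ a ∈ A, ∀ b ∈ B, ¬ JoinedIn {z | g z < c} a b) →
      Bornology.IsBounded {z | ∃ a ∈ A, JoinedIn {z | g z < c} z a}) :
    ∃ s ∈ Sa, (∀ a ∈ A, ∀ b ∈ B, ¬ JoinedIn {z | g z < g s} a b) ∧
      (((∃ a ∈ A, JoinedIn {z | g z < g s} (p1 s) a) ∧
          ¬ ∃ a ∈ A, JoinedIn {z | g z < g s} (p2 s) a) ∨
        ((∃ a ∈ A, JoinedIn {z | g z < g s} (p2 s) a) ∧
          ¬ ∃ a ∈ A, JoinedIn {z | g z < g s} (p1 s) a)) := by
  -- the critical level
  set CC : Set ℝ := {c | ∃ a ∈ A, ∃ b ∈ B, JoinedIn {z | g z < c} a b} with hCC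
  have hmono : ∀ {c c' : ℝ} {a b : E n}, c ≤ c' → JoinedIn {z | g z < c} a b →
      JoinedIn {z | g z < c'} a b := by
    intro c c' a b hcc h
    exact h.mono (fun z hz => lt_of_lt_of_le hz hcc)
  obtain ⟨a0, ha0⟩ := hA
  obtain ⟨b0, hb0⟩ := hB
  have hne : CC.Nonempty := by
    have hj : JoinedIn (univ : Set (E n)) a0 b0 :=
      (convex_univ.isPathConnected ⟨a0, mem_univ _⟩).joinedIn a0 (mem_univ _) b0 (mem_univ _)
    have hc : Continuous (fun s : unitInterval => g (hj.somePath s)) :=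
      hgc.comp hj.somePath.continuous
    obtain ⟨s, -, hs⟩ := isCompact_univ.exists_isMaxOn (univ_nonempty (α := unitInterval))
      hc.continuousOn
    refine ⟨g (hj.somePath s) + 1, a0, ha0, b0, hb0, ⟨hj.somePath, fun t => ?_⟩⟩
    have := hs (mem_univ t)
    simp only [mem_ofPred_eq] at this ⊢
    linarith
  obtain ⟨am, ham, hamm⟩ := A.exists_min_image g ⟨a0, ha0⟩
  have hbdd : BddBelow CC := by
    refine ⟨g am, ?_⟩
    rintro c ⟨a, ha, b, hb, hj⟩
    have h1 : g a < c := hj.source_mem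
    exact (hamm a ha).trans h1.le
  set c0 := sInf CC with hc0
  have hup : ∀ c, c0 < c → c ∈ CC := by
    intro c hc
    obtain ⟨c1, hc1, hc1c⟩ := exists_lt_of_csInf_lt hne hc
    obtain ⟨a, ha, b, hb, hj⟩ := hc1
    exact ⟨a, ha, b, hb, hmono hc1c.le hj⟩
  have hno : ∀ a ∈ A, ∀ b ∈ B, ¬ JoinedIn {z | g z < c0} a b := by
    intro a ha b hb hj
    obtain ⟨c', hc', hj'⟩ := joined_lower g hgc a b c0 hj
    have : c0 ≤ c' := csInf_le hbdd ⟨a, ha, b, hb, hj'⟩
    linarith
  set U : Set (E n) := {z | ∃ a ∈ A, JoinedIn {z | g z < c0} z a} with hUdef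
  set W : Set (E n) := {z | g z < c0} \ U with hWdef
  have hUb : Bornology.IsBounded U := hbd c0 hno
  -- eventually the joined pair lies below c0
  have hev1 : ∀ᶠ c in 𝓝[>] c0, ∃ a ∈ A, ∃ b ∈ B, JoinedIn {z | g z < c} a b := by
    filter_upwards [self_mem_nhdsWithin] with c hc
    exact hup c hc
  have hev2 : ∀ᶠ c in 𝓝[>] c0, ∀ a ∈ A, ∀ b ∈ B, JoinedIn {z | g z < c} a b → g a < c0 := by
    rw [Filter.eventually_all_finset]
    intro a ha
    rw [Filter.eventually_all_finset]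
    intro b hb
    by_cases hga : g a < c0
    · exact Eventually.of_forall (fun _ _ => hga)
    · push Not at hga
      obtain ⟨r, hr, hs⟩ := hAs a ha
      have hba : b ≠ a := by
        intro h; subst h
        exact Finset.disjoint_left.1 hAB ha hb
      filter_upwards [strict_sep g hgc a b r hr hs hba c0 hga] with c hc hj
      exact absurd hj hc
  have hev3 : ∀ᶠ c in 𝓝[>] c0, ∀ a ∈ A, ∀ b ∈ B, JoinedIn {z | g z < c} a b → g b < c0 := by
    rw [Filter.eventually_all_finset]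
    intro a ha
    rw [Filter.eventually_all_finset]
    intro b hb
    by_cases hgb : g b < c0
    · exact Eventually.of_forall (fun _ _ => hgb)
    · push Not at hgb
      have hab : a ≠ b := by
        intro h; subst h
        exact Finset.disjoint_left.1 hAB ha hb
      rcases hBs b hb with ⟨r, hr, hs⟩ | h
      · filter_upwards [strict_sep g hgc b a r hr hs hab c0 hgb] with c hc hj
        exact absurd hj.symm hc
      · filter_upwards [hev2] with c hc hj
        have h1 := hc a ha b hb hj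
        have h2 := h a ha
        linarith
  by_contra hcon
  push Not at hcon
  have hdisj : Disjoint (closure U) (closure W) := by
    rw [Set.disjoint_left]
    intro x hxU hxW
    have hxle : g x ≤ c0 := by
      have h1 : closure W ⊆ {z | g z ≤ c0} := by
        refine closure_minimal ?_ (isClosed_le hgc continuous_const)
        intro z hz
        exact le_of_lt (show g z < c0 from hz.1)
      exact h1 hxW
    -- if all points near x below c0 are joined, contradiction
    have hfin : ∀ N ∈ 𝓝 x, (∀ a ∈ N, ∀ b ∈ N, g a < c0 → g b < c0 →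
        JoinedIn {z | g z < c0} a b) → False := by
      intro N hN h
      obtain ⟨z1, hz1N, hz1U⟩ := mem_closure_iff_nhds.1 hxU N hN
      obtain ⟨z2, hz2N, hz2W⟩ := mem_closure_iff_nhds.1 hxW N hN
      obtain ⟨a, ha, hj⟩ := hz1U
      have h1 : g z1 < c0 := hj.source_mem
      have h2 := h z2 hz2N z1 hz1N hz2W.1 h1
      exact hz2W.2 ⟨a, ha, h2.trans hj⟩
    rcases hxle.lt_or_eq with hlt | heq
    · have hopen : IsOpen {z | g z < c0} := isOpen_lt hgc continuous_const
      obtain ⟨r, hr, hball⟩ := Metric.isOpen_iff.1 hopen x hlt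
      exact hfin (ball x r) (ball_mem_nhds x hr) (fun a ha b hb _ _ =>
        joined_ball _ x r hball a b ha hb)
    · by_cases hxS : x ∈ Sa
      · obtain ⟨N, hN, hNj⟩ := hSa x hxS
        rw [heq] at hNj
        obtain ⟨z1, hz1N, hz1U⟩ := mem_closure_iff_nhds.1 hxU N hN
        obtain ⟨z2, hz2N, hz2W⟩ := mem_closure_iff_nhds.1 hxW N hN
        obtain ⟨a, ha, hj⟩ := hz1U
        have h1 : g z1 < c0 := hj.source_mem
        have hcx := hcon x hxS (by rw [heq]; exact hno)
        rw [heq] at hcx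
        have hz2n : ∀ a' ∈ A, ¬ JoinedIn {z | g z < c0} z2 a' := by
          intro a' ha' hj'
          exact hz2W.2 ⟨a', ha', hj'⟩
        rcases hNj z1 hz1N h1 with h3 | h3
        · rcases hNj z2 hz2N hz2W.1 with h4 | h4
          · exact hz2n a ha (h4.trans (h3.symm.trans hj))
          · obtain ⟨a', ha', hj'⟩ := hcx.1 ⟨a, ha, h3.symm.trans hj⟩
            exact hz2n a' ha' (h4.trans hj')
        · rcases hNj z2 hz2N hz2W.1 with h4 | h4
          · obtain ⟨a', ha', hj'⟩ := hcx.2 ⟨a, ha, h3.symm.trans hj⟩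
            exact hz2n a' ha' (h4.trans hj')
          · exact hz2n a ha (h4.trans (h3.symm.trans hj))
      · obtain ⟨N, hN, hNj⟩ := hLC x hxS
        rw [heq] at hNj
        exact hfin N hN hNj
  have hstay := stay g hgc c0 U W hUb (by
    intro z hz
    by_cases h : z ∈ U
    · exact Or.inl h
    · exact Or.inr ⟨hz, h⟩) hdisj C hC hmin
  obtain ⟨c, ⟨⟨a, ha, b, hb, hj⟩, h2, h3, h4⟩⟩ :=
    (hev1.and (hev2.and (hev3.and hstay))).exists
  have hga := h2 a ha b hb hj
  have hgb := h3 a ha b hb hj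
  have haU : a ∈ U := ⟨a, ha, JoinedIn.refl hga⟩
  have hbW : b ∈ W := by
    refine ⟨hgb, ?_⟩
    rintro ⟨a', ha', hj'⟩
    exact hno a' ha' b hb hj'.symm
  exact h4 a haU b hbW hj

end Pool.Agent.H56.QC
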