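import Mathlib

/-! Definitions for the theorem on quasiconformal gradient maps (MP_1fd04d_an). -/

set_option autoImplicit false

namespace Pool.Agent.H56.QC

open MeasureTheory Set Filter Topology
open scoped RealInnerProductSpace ENNReal

/-- Euclidean space. -/
abbrev E (n : ℕ) := EuclideanSpace ℝ (Fin n)

variable {n : ℕ}

/-- The quadratic form of the operator `A` is positive definite. -/
def Pos0 (A : E n →L[ℝ] E n) : Prop := ∀ v : E n, v ≠ 0 → 0 < ⟪A v, v⟫

/-- The quadratic form of the operator `A` is positive definite on a hyperplane `e^⊥`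
(or on the whole space, when `e = 0`). -/
def Pos1 (A : E n →L[ℝ] E n) : Prop :=
  ∃ e : E n, ∀ v : E n, v ≠ 0 → ⟪e, v⟫ = 0 → 0 < ⟪A v, v⟫

open Classical in
/-- `Theta A = det A` if `A` is positive definite on a hyperplane, `0` otherwise.
For a symmetric `A` this is the product of the eigenvalues of `A` if at most one of them
is `≤ 0`, and `0` otherwise. -/
noncomputable def Theta (A : E n →L[ℝ] E n) : ℝ := if Pos1 A then A.det else 0

/-- The identity operator. -/
noncomputable abbrev I (n : ℕ) : E n →L[ℝ] E n := ContinuousLinearMap.id ℝ (E n)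

/-- The symmetric part of an operator. -/
noncomputable def symP (A : E n →L[ℝ] E n) : E n →L[ℝ] E n :=
  (2⁻¹ : ℝ) • (A + ContinuousLinearMap.adjoint A)

/-- Symmetry of an operator. -/
def Sym (A : E n →L[ℝ] E n) : Prop := ∀ v w : E n, ⟪A v, w⟫ = ⟪v, A w⟫

/-- `n * B_p(A)`, the Burkholder functional, `p ≥ n`. -/
noncomputable def nBp (p : ℝ) (A : E n →L[ℝ] E n) : ℝ :=
  (p * A.det + (n - p) * ‖A‖ ^ n) * ‖A‖ ^ (p - n)

/-- `G` is the weak differential of `f` in the open set `U` : both are locally integrable in `U`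
and `∫ (∂_v φ) f = - ∫ φ (G v)` for all test functions `φ` supported in `U`. -/
def WeakDiff (U : Set (E n)) (f : E n → E n) (G : E n → E n →L[ℝ] E n) : Prop :=
  LocallyIntegrableOn f U ∧ LocallyIntegrableOn G U ∧
  ∀ φ : E n → ℝ, ContDiff ℝ (⊤ : ℕ∞) φ → HasCompactSupport φ → tsupport φ ⊆ U →
    ∀ v : E n, ∫ x, (fderiv ℝ φ x v) • f x = - ∫ x, φ x • G x v

/-- A smooth bump supported in the closed ball of radius `1/(k+1)`. -/
noncomputable def bump (n k : ℕ) : ContDiffBump (0 : E n) where
  rIn := 1 / (2 * ((k : ℝ) + 1))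
  rOut := 1 / ((k : ℝ) + 1)
  rIn_pos := by positivity
  rIn_lt_rOut := by
    have : (0 : ℝ) < (k : ℝ) + 1 := by positivity
    exact one_div_lt_one_div_of_lt this (by linarith)

/-- The mollifier: smooth, even, nonnegative, of integral one, supported in the closed ball of
radius `1/(k+1)`. -/
noncomputable def phi (n k : ℕ) : E n → ℝ := (bump n k).normed volume

/-- Mollification. -/
noncomputable def moll {V : Type*} [NormedAddCommGroup V] [NormedSpace ℝ V] (k : ℕ)
    (f : E n → V) : E n → V := fun x => ∫ y, phi n k y • f (x - y)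

end Pool.Agent.H56.QC
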