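import Pool.Agent.H20.QC.Pot
import Pool.Agent.H33.QC.Ext
import Pool.Agent.H37.QC.Weak
import Pool.Agent.H99.QC.Jac
import Pool.Agent.H99.QC.Layer

set_option autoImplicit false

namespace Pool.Agent.H56.QC

open MeasureTheory Set Filter Topology Metric
open scoped RealInnerProductSpace ENNReal

variable {n : ℕ}

/-- extension by the identity -/
noncomputable def ext (f : E n → E n) : E n → E n := fun x => if ‖x‖ < 1 then f x else x

theorem final_ext_cont (f : E n → E n) (hf : ContinuousOn f (closedBall 0 1))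
    (hb : ∀ x ∈ sphere (0 : E n) 1, f x = x) : Continuous (ext f) := by
  have h1 : ext f = fun x => if ‖x‖ ≤ 1 then f x else x := by
    funext x
    unfold ext
    by_cases hx : ‖x‖ < 1
    · rw [if_pos hx, if_pos hx.le]
    · rw [if_neg hx]
      by_cases hx1 : ‖x‖ ≤ 1
      · rw [if_pos hx1]
        have h3 : x ∈ sphere (0 : E n) 1 := by
          rw [mem_sphere_zero_iff_norm]; exact le_antisymm hx1 (not_lt.1 hx)
        exact (hb x h3).symm
      · rw [if_neg hx1]
  rw [h1]
  refine continuous_if_le continuous_norm continuous_const ?_ continuousOn_id ?_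
  · refine hf.mono ?_
    intro x hx
    have : ‖x‖ ≤ 1 := hx
    simpa using this
  · intro x hx
    exact hb x (by simpa using hx)

theorem final_ext_inj (f : E n → E n) (hi : InjOn f (ball 0 1))
    (ho : f '' ball 0 1 = ball 0 1) : Function.Injective (ext f) := by
  intro x y hxy
  unfold ext at hxy
  have hm : ∀ z : E n, ‖z‖ < 1 → ‖f z‖ < 1 := by
    intro z hz
    have : f z ∈ f '' ball 0 1 := ⟨z, by simpa using hz, rfl⟩
    rw [ho] at this
    simpa using this
  by_cases hx : ‖x‖ < 1
  · by_cases hy : ‖y‖ < 1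
    · rw [if_pos hx, if_pos hy] at hxy
      exact hi (by simpa using hx) (by simpa using hy) hxy
    · rw [if_pos hx, if_neg hy] at hxy
      exact absurd (hxy ▸ hm x hx) hy
  · by_cases hy : ‖y‖ < 1
    · rw [if_neg hx, if_pos hy] at hxy
      exact absurd (hxy ▸ hm y hy) hx
    · rw [if_neg hx, if_neg hy] at hxy
      exact hxy

theorem final_weak_congr (f : E n → E n) (G : E n → E n →L[ℝ] E n)
    (hw : WeakDiff (ball 0 1) f G) : WeakDiff (ball 0 1) (ext f) G := by
  obtain ⟨h1, h2, h3⟩ := hw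
  have heq : ∀ x ∈ ball (0 : E n) 1, ext f x = f x := by
    intro x hx
    have : ‖x‖ < 1 := by simpa using hx
    simp [ext, this]
  refine ⟨?_, h2, ?_⟩
  · refine h1.congr ?_
    filter_upwards [ae_restrict_mem measurableSet_ball] with x hx
    exact (heq x hx).symm
  · intro φ hφ hc hs v
    rw [← h3 φ hφ hc hs v]
    congr 1
    funext x
    by_cases hx : x ∈ ball (0 : E n) 1
    · rw [heq x hx]
    · have h4 : x ∉ tsupport φ := fun h => hx (hs h)
      have h5 : fderiv ℝ φ x = 0 := by
        have h6 : x ∉ tsupport (fderiv ℝ φ) := fun h => h4 (tsupport_fderiv_subset ℝ h)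
        exact image_eq_zero_of_notMem_tsupport h6
      rw [h5]; simp

/-- the symmetric part is norm-nonincreasing -/
theorem final_norm_symP (A : E n →L[ℝ] E n) : ‖symP A‖ ≤ ‖A‖ := by
  unfold symP
  rw [norm_smul]
  have h1 : ‖ContinuousLinearMap.adjoint A‖ = ‖A‖ := LinearIsometryEquiv.norm_map _ A
  have h2 : ‖A + ContinuousLinearMap.adjoint A‖ ≤ ‖A‖ + ‖A‖ := by
    calc _ ≤ ‖A‖ + ‖ContinuousLinearMap.adjoint A‖ := norm_add_le _ _
      _ = _ := by rw [h1]
  rw [Real.norm_of_nonneg (by norm_num)]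
  linarith

theorem final_symP_sub (A : E n →L[ℝ] E n) (a : ℝ) : symP (A - a • I n) = symP A - a • I n := by
  unfold symP
  have h1 : ContinuousLinearMap.adjoint (I n) = I n := by
    ext1 v
    refine ext_inner_right ℝ (fun w => ?_)
    rw [ContinuousLinearMap.adjoint_inner_left]
    simp
  rw [map_sub, map_smulₛₗ, h1]
  simp only [conj_trivial]
  module

theorem final_sym_sub (A : E n →L[ℝ] E n) (hA : Sym A) (a : ℝ) : Sym (A - a • I n) := by
  intro v w
  simp only [_root_.sub_apply, _root_.smul_apply,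
    ContinuousLinearMap.id_apply, inner_sub_left, inner_sub_right, inner_smul_left,
    inner_smul_right, conj_trivial]
  rw [hA v w]

/-- the layer function is measurable in both variables and dominated -/
theorem final_integrable (p : ℝ) (hp : n < p) (G : E n → E n →L[ℝ] E n)
    (hG : IntegrableOn (fun x => ‖G x‖ ^ n) (ball (0 : E n) 1))
    (hm : AEStronglyMeasurable G (volume.restrict (ball (0 : E n) 1))) (T : ℝ) (hT : 0 < T) :
    Integrable (fun z : E n × ℝ => z.2 ^ (p - n - 1) * Theta (symP (G z.1) - z.2 • I n))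
      ((volume.restrict (ball (0 : E n) 1)).prod (volume.restrict (Ioc 0 T))) := by
  have hbd : ∀ z : E n × ℝ, z.2 ∈ Ioc 0 T →
      ‖z.2 ^ (p - n - 1) * Theta (symP (G z.1) - z.2 • I n)‖ ≤
        ((2 : ℝ) ^ n * (‖G z.1‖ ^ n + T ^ n)) * z.2 ^ (p - n - 1) := by
    intro z hz
    have h0 : 0 ≤ z.2 ^ (p - n - 1) := Real.rpow_nonneg hz.1.le _
    rw [norm_mul, Real.norm_of_nonneg h0, mul_comm]
    refine mul_le_mul_of_nonneg_right ?_ h0
    have h1 := abs_theta_le (symP (G z.1) - z.2 • I n)
      (final_sym_sub _ (symP_sym _) _)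
    rw [Real.norm_eq_abs]
    refine h1.trans ?_
    have h2 : ‖symP (G z.1) - z.2 • I n‖ ≤ ‖G z.1‖ + T := by
      refine (norm_sub_le _ _).trans (add_le_add (final_norm_symP _) ?_)
      rw [norm_smul, Real.norm_of_nonneg hz.1.le]
      calc z.2 * ‖I n‖ ≤ z.2 * 1 :=
            mul_le_mul_of_nonneg_left ContinuousLinearMap.norm_id_le hz.1.le
        _ ≤ T := by rw [mul_one]; exact hz.2
    calc ‖symP (G z.1) - z.2 • I n‖ ^ n ≤ (‖G z.1‖ + T) ^ n :=
          pow_le_pow_left₀ (norm_nonneg _) h2 n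
      _ ≤ (2 : ℝ) ^ n * (‖G z.1‖ ^ n + T ^ n) := by
        rcases le_total ‖G z.1‖ T with h | h
        · calc (‖G z.1‖ + T) ^ n ≤ (2 * T) ^ n := by
                apply pow_le_pow_left₀ (by positivity); linarith
            _ = (2 : ℝ) ^ n * T ^ n := by rw [mul_pow]
            _ ≤ _ := by
              have := pow_nonneg (norm_nonneg (G z.1)) n
              have h3 : (0:ℝ) ≤ 2 ^ n := by positivity
              nlinarith
        · calc (‖G z.1‖ + T) ^ n ≤ (2 * ‖G z.1‖) ^ n := by
                apply pow_le_pow_left₀ (by positivity); linarith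
            _ = (2 : ℝ) ^ n * ‖G z.1‖ ^ n := by rw [mul_pow]
            _ ≤ _ := by
              have := pow_nonneg hT.le n
              have h3 : (0:ℝ) ≤ 2 ^ n := by positivity
              nlinarith
  have hdom : Integrable (fun z : E n × ℝ =>
      ((2 : ℝ) ^ n * (‖G z.1‖ ^ n + T ^ n)) * z.2 ^ (p - n - 1))
      ((volume.restrict (ball (0 : E n) 1)).prod (volume.restrict (Ioc 0 T))) := by
    refine Integrable.mul_prod (f := fun x => (2 : ℝ) ^ n * (‖G x‖ ^ n + T ^ n))
      (g := fun a : ℝ => a ^ (p - n - 1)) ?_ ?_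
    · refine (Integrable.add hG ?_).const_mul _
      exact integrableOn_const (by finiteness) (by finiteness)
    · have h1 : IntervalIntegrable (fun a : ℝ => a ^ (p - n - 1)) volume 0 T :=
        intervalIntegral.intervalIntegrable_rpow' (by linarith)
      rw [intervalIntegrable_iff_integrableOn_Ioc_of_le hT.le] at h1
      exact h1
  refine hdom.mono' ?_ ?_
  · have h1 : AEStronglyMeasurable (fun z : E n × ℝ => G z.1)
        ((volume.restrict (ball (0 : E n) 1)).prod (volume.restrict (Ioc 0 T))) :=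
      hm.comp_fst
    have h2 : AEStronglyMeasurable (fun z : E n × ℝ => G z.1 - z.2 • I n)
        ((volume.restrict (ball (0 : E n) 1)).prod (volume.restrict (Ioc 0 T))) := by
      refine h1.sub ?_
      exact (Continuous.aestronglyMeasurable (by fun_prop))
    have h3 := theta_continuous.comp_aestronglyMeasurable h2
    have h4 : (fun z : E n × ℝ => Theta (symP (G z.1) - z.2 • I n)) =
        fun z => Theta (symP (G z.1 - z.2 • I n)) := by
      funext z; rw [final_symP_sub]
    have h5 : AEStronglyMeasurable (fun z : E n × ℝ => z.2 ^ (p - n - 1))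
        ((volume.restrict (ball (0 : E n) 1)).prod (volume.restrict (Ioc 0 T))) := by
      exact (measurable_snd.pow_const _).aestronglyMeasurable
    refine h5.mul ?_
    rw [h4]; exact h3
  · have h1 : ∀ᵐ z : E n × ℝ ∂((volume.restrict (ball (0 : E n) 1)).prod
        (volume.restrict (Ioc 0 T))), z.2 ∈ Ioc 0 T := by
      have h2 : ∀ᵐ a : ℝ ∂(volume.restrict (Ioc 0 T)), a ∈ Ioc 0 T :=
        ae_restrict_mem measurableSet_Ioc
      exact (Measure.quasiMeasurePreserving_snd (μ := volume.restrict (ball (0 : E n) 1))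
        (ν := volume.restrict (Ioc 0 T))).ae h2
    filter_upwards [h1] with z hz
    exact hbd z hz

/-- `f` is a `K`-quasiconformal map of the open unit ball onto itself with weak differential
`G`, continuous on the closed ball and equal to the identity on the unit sphere: `f` is continuous
on the closed ball, injective on the ball, maps the ball onto itself, `G` is the weak differential
of `f` in the ball, `‖G‖ ^ n` is locally integrable, and `‖G x‖ ^ n ≤ K * det (G x)` for almost
every `x` in the ball. -/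
structure QCMap (K : ℝ) (f : E n → E n) (G : E n → E n →L[ℝ] E n) : Prop where
  cont : ContinuousOn f (closedBall 0 1)
  bdry : ∀ x ∈ sphere (0 : E n) 1, f x = x
  inj : InjOn f (ball 0 1)
  onto : f '' ball 0 1 = ball 0 1
  weak : WeakDiff (ball 0 1) f G
  sob : LocallyIntegrableOn (fun x => ‖G x‖ ^ n) (ball 0 1)
  dist : ∀ᵐ x ∂(volume.restrict (ball (0 : E n) 1)), ‖G x‖ ^ n ≤ K * (G x).det

/-- what the potential gives -/
theorem final_facts (hn : 2 ≤ n) (K : ℝ) (hK : 0 < K) (f : E n → E n)
    (G : E n → E n →L[ℝ] E n) (hq : QCMap K f G)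
    (hpot : ∃ u : E n → ℝ, ∀ x ∈ ball (0 : E n) 1, HasGradientAt u (f x) x) :
    (∀ᵐ x ∂(volume.restrict (ball (0 : E n) 1)), Sym (G x)) ∧
    (∀ᵐ x ∂(volume.restrict (ball (0 : E n) 1)), ∀ v : E n, 0 ≤ ⟪G x v, v⟫) ∧
    (∫⁻ x in ball (0 : E n) 1, ENNReal.ofReal (G x).det ≤ volume (ball (0 : E n) 1)) ∧
    IntegrableOn (fun x => ‖G x‖ ^ n) (ball (0 : E n) 1) ∧
    AEStronglyMeasurable G (volume.restrict (ball (0 : E n) 1)) ∧
    (∀ a : ℝ, 0 < a → a ≠ 1 → ∫ x in ball (0 : E n) 1, Theta (symP (G x) - a • I n) ≤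
      (max (1 - a) 0) ^ n * volume.real (ball (0 : E n) 1)) := by
  obtain ⟨u, hu⟩ := hpot
  obtain ⟨U, hU⟩ := extend_potential hn f hq.cont hq.bdry u hu
  have hU' : ∀ x, HasGradientAt U (ext f x) x := hU
  have hcont : Continuous (ext f) := final_ext_cont f hq.cont hq.bdry
  have hinj : Function.Injective (ext f) := final_ext_inj f hq.inj hq.onto
  have hout : ∀ x : E n, 1 ≤ ‖x‖ → ext f x = x := by
    intro x hx
    unfold ext
    rw [if_neg (not_lt.2 hx)]
  have hconv : ConvexOn ℝ univ U := convex_of_injective U (ext f) hU' hinj hout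
  have hweak : WeakDiff (ball 0 1) (ext f) G := final_weak_congr f G hq.weak
  have hsym : ∀ᵐ x ∂(volume.restrict (ball (0 : E n) 1)), Sym (G x) :=
    sym_of_potential (ball 0 1) isOpen_ball U (ext f) hcont.continuousOn
      (fun x _ => hU' x) G hweak
  have hpos := weak_nonneg U (ext f) hcont hU' hconv G hweak
  have hmaps : MapsTo (ext f) (ball 0 1) (ball 0 1) := by
    intro x hx
    have h1 : ‖x‖ < 1 := by simpa using hx
    have h2 : ext f x = f x := by simp [ext, h1]
    rw [h2, ← hq.onto]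
    exact ⟨x, hx, rfl⟩
  have hjac := jac_bound hn U (ext f) hcont hU' hconv hmaps G hweak
  have hm : AEStronglyMeasurable G (volume.restrict (ball (0 : E n) 1)) :=
    hq.weak.2.1.aestronglyMeasurable
  have hGn : IntegrableOn (fun x => ‖G x‖ ^ n) (ball (0 : E n) 1) := by
    refine ⟨(hm.norm.pow n), ?_⟩
    rw [hasFiniteIntegral_iff_norm]
    calc ∫⁻ x in ball (0 : E n) 1, ENNReal.ofReal ‖‖G x‖ ^ n‖
        ≤ ∫⁻ x in ball (0 : E n) 1, ENNReal.ofReal K * ENNReal.ofReal (G x).det := by
          refine lintegral_mono_ae ?_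
          filter_upwards [hq.dist] with x hx
          rw [← ENNReal.ofReal_mul hK.le, Real.norm_of_nonneg (by positivity)]
          exact ENNReal.ofReal_le_ofReal hx
      _ ≤ ENNReal.ofReal K * volume (ball (0 : E n) 1) := by
          rw [lintegral_const_mul' _ _ ENNReal.ofReal_ne_top]
          gcongr
      _ < ∞ := ENNReal.mul_lt_top ENNReal.ofReal_lt_top measure_ball_lt_top
  have hG1 : IntegrableOn G (ball (0 : E n) 1) := by
    have hfin : IntegrableOn (fun x => 1 + ‖G x‖ ^ n) (ball (0 : E n) 1) :=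
      Integrable.add (integrableOn_const (by finiteness) (by finiteness)) hGn
    refine Integrable.mono' hfin hm ?_
    refine Eventually.of_forall (fun x => ?_)
    rcases le_total ‖G x‖ 1 with h | h
    · have : 0 ≤ ‖G x‖ ^ n := by positivity
      linarith
    · have : ‖G x‖ ≤ ‖G x‖ ^ n := le_self_pow₀ h (by omega)
      linarith
  have hwe := weakDiff_extend hn f hq.cont hq.bdry G hq.weak hG1
  have hGt : LocallyIntegrable (fun x : E n => ‖(if ‖x‖ < 1 then G x else I n)‖ ^ n) := by
    have h1 : (fun x : E n => ‖(if ‖x‖ < 1 then G x else I n)‖ ^ n) =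
        fun x => (ball (0 : E n) 1).indicator (fun x => ‖G x‖ ^ n) x +
          (ball (0 : E n) 1)ᶜ.indicator (fun _ => ‖I n‖ ^ n) x := by
      funext x
      by_cases hx : ‖x‖ < 1
      · have hx' : x ∈ ball (0 : E n) 1 := by simpa using hx
        rw [if_pos hx, indicator_of_mem hx', indicator_of_notMem (by simpa using hx), add_zero]
      · have hx' : x ∉ ball (0 : E n) 1 := by simpa using hx
        rw [if_neg hx, indicator_of_notMem hx', indicator_of_mem hx', zero_add]
    rw [h1]
    refine LocallyIntegrable.add ?_ ?_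
    · exact (hGn.integrable_indicator measurableSet_ball).locallyIntegrable
    · exact (locallyIntegrable_const _).indicator measurableSet_ball.compl
  refine ⟨hsym, hpos, hjac, hGn, hm, ?_⟩
  intro a ha ha1
  have := mp_weak hn U (ext f) hcont hU' _ hwe hGt hout a ha ha1
  refine le_of_eq_of_le ?_ this
  refine setIntegral_congr_fun measurableSet_ball ?_
  intro x hx
  have h1 : ‖x‖ < 1 := by simpa using hx
  simp only [if_pos h1]

/-- integrated layer inequality -/
theorem final_layer (hn : 2 ≤ n) (p : ℝ) (hp : n < p) (G : E n → E n →L[ℝ] E n)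
    (hG : IntegrableOn (fun x => ‖G x‖ ^ n) (ball (0 : E n) 1))
    (hm : AEStronglyMeasurable G (volume.restrict (ball (0 : E n) 1)))
    (hlev : ∀ a : ℝ, 0 < a → a ≠ 1 → ∫ x in ball (0 : E n) 1, Theta (symP (G x) - a • I n) ≤
      (max (1 - a) 0) ^ n * volume.real (ball (0 : E n) 1)) (T : ℝ) (hT : 1 ≤ T) :
    cst n p * ∫ x in ball (0 : E n) 1, ∫ a in (0:ℝ)..T,
      a ^ (p - n - 1) * Theta (symP (G x) - a • I n) ≤ n * volume.real (ball (0 : E n) 1) := by
  have hT0 : 0 < T := by linarith
  have hint := final_integrable p hp G hG hm T hT0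
  have h1 : ∫ x in ball (0 : E n) 1, ∫ a in (0:ℝ)..T,
      a ^ (p - n - 1) * Theta (symP (G x) - a • I n) =
      ∫ a in Ioc 0 T, ∫ x in ball (0 : E n) 1,
        a ^ (p - n - 1) * Theta (symP (G x) - a • I n) := by
    simp only [intervalIntegral.integral_of_le hT0.le]
    exact integral_integral_swap hint
  have hint1 : IntervalIntegrable (fun a : ℝ => a ^ (p - n - 1)) volume 0 T :=
    intervalIntegral.intervalIntegrable_rpow' (by linarith)
  have hint2 : IntegrableOn (fun a : ℝ => a ^ (p - n - 1) * (max (1 - a) 0) ^ n *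
      volume.real (ball (0 : E n) 1)) (Ioc 0 T) := by
    rw [intervalIntegrable_iff_integrableOn_Ioc_of_le hT0.le] at hint1
    have h2 := hint1.bdd_mul (c := 1) (f := fun a : ℝ => (max (1 - a) 0) ^ n)
      (Continuous.aestronglyMeasurable (by fun_prop)) (by
        filter_upwards [ae_restrict_mem measurableSet_Ioc] with a ha
        rw [Real.norm_of_nonneg (by positivity)]
        refine pow_le_one₀ (le_max_right _ _) (max_le ?_ zero_le_one)
        linarith [ha.1])
    refine (h2.mul_const (volume.real (ball (0 : E n) 1))).congr ?_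
    refine Eventually.of_forall (fun a => ?_)
    ring
  have h2 : ∫ a in Ioc 0 T, ∫ x in ball (0 : E n) 1,
        a ^ (p - n - 1) * Theta (symP (G x) - a • I n) ≤
      ∫ a in Ioc 0 T, a ^ (p - n - 1) * (max (1 - a) 0) ^ n * volume.real (ball (0 : E n) 1) := by
    refine integral_mono_ae ?_ hint2 ?_
    · exact hint.integral_prod_right
    · have hne : ∀ᵐ a : ℝ ∂(volume.restrict (Ioc 0 T)), a ≠ 1 :=
        ae_restrict_of_ae (Measure.ae_ne volume 1)
      filter_upwards [ae_restrict_mem measurableSet_Ioc, hne] with a ha ha1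
      rw [integral_const_mul, mul_assoc]
      exact mul_le_mul_of_nonneg_left (hlev a ha.1 ha1) (Real.rpow_nonneg ha.1.le _)
  have h3 : ∫ a in Ioc 0 T, a ^ (p - n - 1) * (max (1 - a) 0) ^ n *
      volume.real (ball (0 : E n) 1) =
      (∫ a in (0:ℝ)..1, a ^ (p - n - 1) * (1 - a) ^ n) * volume.real (ball (0 : E n) 1) := by
    rw [integral_mul_const]
    congr 1
    rw [intervalIntegral.integral_of_le zero_le_one]
    have h4 : Ioc 0 T = Ioc 0 1 ∪ Ioc 1 T := (Ioc_union_Ioc_eq_Ioc zero_le_one hT).symm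
    rw [h4, setIntegral_union (Ioc_disjoint_Ioc_of_le le_rfl) measurableSet_Ioc]
    · have h5 : ∫ a in Ioc 1 T, a ^ (p - n - 1) * (max (1 - a) 0) ^ n = 0 := by
        refine setIntegral_eq_zero_of_forall_eq_zero ?_
        intro a ha
        rw [max_eq_right (by linarith [ha.1]), zero_pow (by omega), mul_zero]
      rw [h5, add_zero]
      refine setIntegral_congr_fun measurableSet_Ioc ?_
      intro a ha
      simp only
      rw [max_eq_left (by linarith [ha.2])]
    · have h6 := hint1.1.mono_set (Ioc_subset_Ioc_right hT)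
      refine (h6.bdd_mul (c := 1) (f := fun a : ℝ => (max (1 - a) 0) ^ n)
        (Continuous.aestronglyMeasurable (by fun_prop)) (by
          filter_upwards [ae_restrict_mem measurableSet_Ioc] with a ha
          rw [Real.norm_of_nonneg (by positivity)]
          refine pow_le_one₀ (le_max_right _ _) (max_le ?_ zero_le_one)
          linarith [ha.1])).congr ?_
      exact Eventually.of_forall (fun a => by ring)
    · have h6 := hint1.1.mono_set (show Ioc 1 T ⊆ Ioc 0 T from Ioc_subset_Ioc_left zero_le_one)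
      refine (h6.bdd_mul (c := 1) (f := fun a : ℝ => (max (1 - a) 0) ^ n)
        (Continuous.aestronglyMeasurable (by fun_prop)) (by
          filter_upwards [ae_restrict_mem measurableSet_Ioc] with a ha
          rw [Real.norm_of_nonneg (by positivity)]
          refine pow_le_one₀ (le_max_right _ _) (max_le ?_ zero_le_one)
          linarith [ha.1])).congr ?_
      exact Eventually.of_forall (fun a => by ring)
  have hc := cst_norm hn p hp
  have hcp := cst_pos hn p hp
  calc cst n p * ∫ x in ball (0 : E n) 1, ∫ a in (0:ℝ)..T,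
      a ^ (p - n - 1) * Theta (symP (G x) - a • I n)
      ≤ cst n p * ((∫ a in (0:ℝ)..1, a ^ (p - n - 1) * (1 - a) ^ n) *
          volume.real (ball (0 : E n) 1)) := by
        rw [h1]
        refine mul_le_mul_of_nonneg_left ?_ hcp.le
        rw [← h3]; exact h2
    _ = n * volume.real (ball (0 : E n) 1) := by rw [← mul_assoc, hc]

/-- the truncated main inequality -/
theorem final_trunc (hn : 2 ≤ n) (p : ℝ) (hp : n < p) (G : E n → E n →L[ℝ] E n)
    (hG : IntegrableOn (fun x => ‖G x‖ ^ n) (ball (0 : E n) 1))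
    (hm : AEStronglyMeasurable G (volume.restrict (ball (0 : E n) 1)))
    (hsym : ∀ᵐ x ∂(volume.restrict (ball (0 : E n) 1)), Sym (G x))
    (hpos : ∀ᵐ x ∂(volume.restrict (ball (0 : E n) 1)), ∀ v : E n, 0 ≤ ⟪G x v, v⟫)
    (hB : ∀ᵐ x ∂(volume.restrict (ball (0 : E n) 1)), 0 ≤ nBp p (G x))
    (hlev : ∀ a : ℝ, 0 < a → a ≠ 1 → ∫ x in ball (0 : E n) 1, Theta (symP (G x) - a • I n) ≤
      (max (1 - a) 0) ^ n * volume.real (ball (0 : E n) 1)) (T : ℝ) (hT : 1 ≤ T) :
    ∫⁻ x in ball (0 : E n) 1, ENNReal.ofReal (if ‖G x‖ ≤ T then nBp p (G x) else 0) ≤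
      ENNReal.ofReal (n * volume.real (ball (0 : E n) 1)) := by
  have hT0 : 0 < T := by linarith
  have hint := (final_integrable p hp G hG hm T hT0).integral_prod_left
  have hcp := cst_pos hn p hp
  have h1 : ∫⁻ x in ball (0 : E n) 1, ENNReal.ofReal (if ‖G x‖ ≤ T then nBp p (G x) else 0) ≤
      ∫⁻ x in ball (0 : E n) 1, ENNReal.ofReal (cst n p * ∫ a in Ioc 0 T,
        a ^ (p - n - 1) * Theta (symP (G x) - a • I n)) := by
    refine lintegral_mono_ae ?_
    filter_upwards [hsym, hpos, hB] with x hx hx1 hx2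
    refine ENNReal.ofReal_le_ofReal ?_
    rw [← intervalIntegral.integral_of_le hT0.le, symP_eq _ hx]
    split_ifs with h
    · exact nBp_le hn p hp (G x) hx hx1 T hT0 h
    · exact mul_nonneg hcp.le (layer_nonneg hn p hp (G x) hx hx1 hx2 T hT0)
  refine h1.trans ?_
  rw [← ofReal_integral_eq_lintegral_ofReal]
  · refine ENNReal.ofReal_le_ofReal ?_
    rw [integral_const_mul]
    have := final_layer hn p hp G hG hm hlev T hT
    simp only [intervalIntegral.integral_of_le hT0.le] at this
    exact this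
  · exact hint.const_mul _
  · filter_upwards [hsym, hpos, hB] with x hx hx1 hx2
    have := layer_nonneg hn p hp (G x) hx hx1 hx2 T hT0
    rw [intervalIntegral.integral_of_le hT0.le] at this
    simp only [Pi.zero_apply]
    rw [symP_eq _ hx]
    exact mul_nonneg hcp.le this

theorem final_main (hn : 2 ≤ n) (p : ℝ) (hp : n < p) (G : E n → E n →L[ℝ] E n)
    (hG : IntegrableOn (fun x => ‖G x‖ ^ n) (ball (0 : E n) 1))
    (hm : AEStronglyMeasurable G (volume.restrict (ball (0 : E n) 1)))
    (hsym : ∀ᵐ x ∂(volume.restrict (ball (0 : E n) 1)), Sym (G x))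
    (hpos : ∀ᵐ x ∂(volume.restrict (ball (0 : E n) 1)), ∀ v : E n, 0 ≤ ⟪G x v, v⟫)
    (hB : ∀ᵐ x ∂(volume.restrict (ball (0 : E n) 1)), 0 ≤ nBp p (G x))
    (hlev : ∀ a : ℝ, 0 < a → a ≠ 1 → ∫ x in ball (0 : E n) 1, Theta (symP (G x) - a • I n) ≤
      (max (1 - a) 0) ^ n * volume.real (ball (0 : E n) 1)) :
    ∫⁻ x in ball (0 : E n) 1, ENNReal.ofReal (nBp p (G x)) ≤
      n * volume (ball (0 : E n) 1) := by
  have hdet : AEMeasurable (fun x => nBp p (G x)) (volume.restrict (ball (0 : E n) 1)) := by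
    have h1 : Continuous (fun A : E n →L[ℝ] E n => A.det) := ContinuousLinearMap.continuous_det
    have h2 : AEMeasurable (fun x => (G x).det) (volume.restrict (ball (0 : E n) 1)) :=
      (h1.comp_aestronglyMeasurable hm).aemeasurable
    have h3 : AEMeasurable (fun x => ‖G x‖) (volume.restrict (ball (0 : E n) 1)) :=
      hm.norm.aemeasurable
    unfold nBp
    exact ((h2.const_mul p).add ((h3.pow_const n).const_mul _)).mul (h3.pow_const _)
  have hlim : ∀ x, ENNReal.ofReal (nBp p (G x)) = liminf (fun k : ℕ =>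
      ENNReal.ofReal (if ‖G x‖ ≤ (k : ℝ) + 1 then nBp p (G x) else 0)) atTop := by
    intro x
    symm
    refine Tendsto.liminf_eq ?_
    refine tendsto_const_nhds.congr' ?_
    obtain ⟨k0, hk0⟩ := exists_nat_ge ‖G x‖
    filter_upwards [eventually_ge_atTop k0] with k hk
    have : (k0 : ℝ) ≤ k := by exact_mod_cast hk
    rw [if_pos (by linarith)]
  calc ∫⁻ x in ball (0 : E n) 1, ENNReal.ofReal (nBp p (G x))
      = ∫⁻ x in ball (0 : E n) 1, liminf (fun k : ℕ =>
      ENNReal.ofReal (if ‖G x‖ ≤ (k : ℝ) + 1 then nBp p (G x) else 0)) atTop := by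
        simp_rw [hlim]
    _ ≤ liminf (fun k : ℕ => ∫⁻ x in ball (0 : E n) 1,
      ENNReal.ofReal (if ‖G x‖ ≤ (k : ℝ) + 1 then nBp p (G x) else 0)) atTop := by
        refine lintegral_liminf_le' (fun k => ?_)
        refine AEMeasurable.ennreal_ofReal ?_
        have h3 : AEMeasurable (fun x => ‖G x‖) (volume.restrict (ball (0 : E n) 1)) :=
          hm.norm.aemeasurable
        have h4 : NullMeasurableSet {x | ‖G x‖ ≤ (k : ℝ) + 1}
            (volume.restrict (ball (0 : E n) 1)) :=
          nullMeasurableSet_le h3 aemeasurable_const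
        have h5 : (fun x => if ‖G x‖ ≤ (k : ℝ) + 1 then nBp p (G x) else 0) =
            {x | ‖G x‖ ≤ (k : ℝ) + 1}.indicator (fun x => nBp p (G x)) := by
          funext x
          by_cases h : ‖G x‖ ≤ (k : ℝ) + 1
          · rw [if_pos h, indicator_of_mem (by exact h)]
          · rw [if_neg h, indicator_of_notMem (by exact h)]
        rw [h5]
        exact hdet.indicator₀ h4
    _ ≤ liminf (fun _ : ℕ => ENNReal.ofReal (n * volume.real (ball (0 : E n) 1))) atTop := by
        refine liminf_le_liminf (Eventually.of_forall (fun k => ?_))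
        exact final_trunc hn p hp G hG hm hsym hpos hB hlev ((k : ℝ) + 1)
          (by have : (0:ℝ) ≤ k := Nat.cast_nonneg k
              linarith)
    _ = ENNReal.ofReal (n * volume.real (ball (0 : E n) 1)) := by simp
    _ = n * volume (ball (0 : E n) 1) := by
        rw [ENNReal.ofReal_mul (Nat.cast_nonneg n), ENNReal.ofReal_natCast]
        congr 1
        exact ENNReal.ofReal_toReal measure_ball_lt_top.ne

open Classical in
/-- the pointwise distortion of the problem -/
noncomputable def Kx (A : E n →L[ℝ] E n) : ℝ := if 0 < A.det then ‖A‖ ^ n / A.det else 1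

/-- pointwise identity: `(n - p + p / K(x)) |Df|^p = n B_p(Df)` -/
theorem final_point (hn : 2 ≤ n) (K : ℝ) (p : ℝ) (hp : n ≤ p)
    (A : E n →L[ℝ] E n) (hA : ‖A‖ ^ n ≤ K * A.det) (hdet : 0 ≤ A.det) :
    (n - p + p / Kx A) * ‖A‖ ^ p = nBp p A := by
  have hp0 : 0 < p := lt_of_lt_of_le (by exact_mod_cast (by omega : 0 < n)) hp
  rcases hdet.lt_or_eq with hd | hd
  · have hn0 : 0 < ‖A‖ := by
      rw [norm_pos_iff]
      intro h
      rw [h] at hd
      have h1 : (0 : E n →L[ℝ] E n).det = 0 := by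
        have hne : Module.finrank ℝ (E n) ≠ 0 := by simp; omega
        rw [ContinuousLinearMap.det, ContinuousLinearMap.toLinearMap_zero, LinearMap.det_zero,
          zero_pow hne]
      linarith
    unfold Kx nBp
    rw [if_pos hd]
    have h2 : ‖A‖ ^ p = ‖A‖ ^ n * ‖A‖ ^ (p - n) := by
      rw [← Real.rpow_natCast, ← Real.rpow_add hn0]
      congr 1; ring
    rw [h2]
    have h3 : ‖A‖ ^ n ≠ 0 := (pow_pos hn0 n).ne'
    field_simp
    ring
  · have h1 : ‖A‖ = 0 := by
      rw [← hd, mul_zero] at hA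
      exact eq_zero_of_pow_eq_zero (le_antisymm hA (by positivity))
    unfold nBp
    rw [h1, ← hd, Real.zero_rpow hp0.ne', zero_pow (by omega)]
    simp

theorem final_nonneg (hn : 2 ≤ n) (K : ℝ) (hK : 1 < K) (p : ℝ) (hp : n ≤ p)
    (hp2 : p ≤ n * K / (K - 1)) (A : E n →L[ℝ] E n) (hA : ‖A‖ ^ n ≤ K * A.det) :
    0 ≤ nBp p A := by
  have hp0 : 0 < p := lt_of_lt_of_le (by exact_mod_cast (by omega : 0 < n)) hp
  have hK0 : 0 < K := by linarith
  unfold nBp
  refine mul_nonneg ?_ (Real.rpow_nonneg (norm_nonneg _) _)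
  rw [le_div_iff₀ (by linarith)] at hp2
  have h0 : 0 ≤ ‖A‖ ^ n := by positivity
  have h1 : p * (‖A‖ ^ n) ≤ p * (K * A.det) := mul_le_mul_of_nonneg_left hA hp0.le
  have h2 : 0 ≤ K * (p * A.det + (n - p) * ‖A‖ ^ n) := by
    have : 0 ≤ (n * K - p * (K - 1)) * ‖A‖ ^ n := mul_nonneg (by linarith) h0
    nlinarith
  exact nonneg_of_mul_nonneg_right h2 hK0

theorem gradient_maps (hn : 2 ≤ n) (K : ℝ) (hK : 1 < K) (f : E n → E n)
    (G : E n → E n →L[ℝ] E n) (hq : QCMap K f G)
    (hpot : ∃ u : E n → ℝ, ∀ x ∈ ball (0 : E n) 1, HasGradientAt u (f x) x)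
    (p : ℝ) (hp : n ≤ p) (hp2 : p ≤ n * K / (K - 1)) :
    ∫⁻ x in ball (0 : E n) 1, ENNReal.ofReal ((n - p + p / Kx (G x)) * ‖G x‖ ^ p) ≤
      n * volume (ball (0 : E n) 1) := by
  have hK0 : 0 < K := by linarith
  obtain ⟨hsym, hpos, hjac, hGn, hm, hlev⟩ := final_facts hn K hK0 f G hq hpot
  have hdet : ∀ᵐ x ∂(volume.restrict (ball (0 : E n) 1)), 0 ≤ (G x).det := by
    filter_upwards [hq.dist] with x hx
    have h0 : 0 ≤ ‖G x‖ ^ n := by positivity
    exact nonneg_of_mul_nonneg_right (h0.trans hx) hK0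
  have heq : ∫⁻ x in ball (0 : E n) 1, ENNReal.ofReal ((n - p + p / Kx (G x)) * ‖G x‖ ^ p) =
      ∫⁻ x in ball (0 : E n) 1, ENNReal.ofReal (nBp p (G x)) := by
    refine lintegral_congr_ae ?_
    filter_upwards [hq.dist, hdet] with x hx hx1
    rw [final_point hn K p hp (G x) hx hx1]
  rw [heq]
  rcases hp.lt_or_eq with hlt | hpe
  · refine final_main hn p hlt G hGn hm hsym hpos ?_ hlev
    filter_upwards [hq.dist] with x hx
    exact final_nonneg hn K hK p hp hp2 (G x) hx
  · have h1 : ∀ x, nBp p (G x) = n * (G x).det := by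
      intro x
      unfold nBp
      rw [← hpe]
      simp
    simp_rw [h1]
    calc ∫⁻ x in ball (0 : E n) 1, ENNReal.ofReal (n * (G x).det)
        = ∫⁻ x in ball (0 : E n) 1, (n : ℝ≥0∞) * ENNReal.ofReal (G x).det := by
          refine lintegral_congr (fun x => ?_)
          rw [ENNReal.ofReal_mul (Nat.cast_nonneg n), ENNReal.ofReal_natCast]
      _ = n * ∫⁻ x in ball (0 : E n) 1, ENNReal.ofReal (G x).det := by
          rw [lintegral_const_mul' _ _ (ENNReal.natCast_ne_top n)]
      _ ≤ _ := by gcongr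

/-- the corollary: the sharp `L^p` bound below the critical exponent -/
theorem gradient_maps_Lp (hn : 2 ≤ n) (K : ℝ) (hK : 1 < K) (f : E n → E n)
    (G : E n → E n →L[ℝ] E n) (hq : QCMap K f G)
    (hpot : ∃ u : E n → ℝ, ∀ x ∈ ball (0 : E n) 1, HasGradientAt u (f x) x)
    (p : ℝ) (hp : n ≤ p) (hp2 : p < n * K / (K - 1)) :
    ∫⁻ x in ball (0 : E n) 1, ENNReal.ofReal (‖G x‖ ^ p) ≤
      ENNReal.ofReal (n * K / (n * K - p * (K - 1))) * volume (ball (0 : E n) 1) := by
  have hK0 : 0 < K := by linarith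
  have hp0 : 0 < p := lt_of_lt_of_le (by exact_mod_cast (by omega : 0 < n)) hp
  have hn0 : (0 : ℝ) < n := by exact_mod_cast (by omega : 0 < n)
  have hp2' := hp2
  rw [lt_div_iff₀ (by linarith)] at hp2'
  have hD : 0 < n * K - p * (K - 1) := by linarith
  have hmain := gradient_maps hn K hK f G hq hpot p hp hp2.le
  have hpt : ∀ᵐ x ∂(volume.restrict (ball (0 : E n) 1)),
      ENNReal.ofReal (‖G x‖ ^ p) ≤ ENNReal.ofReal (K / (n * K - p * (K - 1))) *
        ENNReal.ofReal ((n - p + p / Kx (G x)) * ‖G x‖ ^ p) := by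
    filter_upwards [hq.dist] with x hx
    have hnp : 0 ≤ ‖G x‖ ^ p := Real.rpow_nonneg (norm_nonneg _) _
    rw [← ENNReal.ofReal_mul (by positivity)]
    refine ENNReal.ofReal_le_ofReal ?_
    have hKx : 0 < Kx (G x) ∧ Kx (G x) ≤ K := by
      unfold Kx
      split_ifs with h
      · constructor
        · have : 0 < ‖G x‖ := by
            rw [norm_pos_iff]
            intro h0
            rw [h0] at h
            have h1 : (0 : E n →L[ℝ] E n).det = 0 := by
              have hne : Module.finrank ℝ (E n) ≠ 0 := by simp; omega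
              rw [ContinuousLinearMap.det, ContinuousLinearMap.toLinearMap_zero, LinearMap.det_zero,
                zero_pow hne]
            linarith
          positivity
        · rw [div_le_iff₀ h]; exact hx
      · exact ⟨one_pos, hK.le⟩
    have h1 : p / K ≤ p / Kx (G x) := div_le_div_of_nonneg_left hp0.le hKx.1 hKx.2
    have h2 : (n * K - p * (K - 1)) / K ≤ n - p + p / Kx (G x) := by
      have : (n * K - p * (K - 1)) / K = n - p + p / K := by field_simp; ring
      rw [this]; linarith
    have h3 : K / (n * K - p * (K - 1)) * ((n * K - p * (K - 1)) / K) = 1 := by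
      rw [div_mul_div_comm, mul_comm K]
      exact div_self (mul_ne_zero hD.ne' hK0.ne')
    calc ‖G x‖ ^ p = K / (n * K - p * (K - 1)) * (((n * K - p * (K - 1)) / K) * ‖G x‖ ^ p) := by
          rw [← mul_assoc, h3, one_mul]
      _ ≤ _ := by gcongr
  calc ∫⁻ x in ball (0 : E n) 1, ENNReal.ofReal (‖G x‖ ^ p)
      ≤ ∫⁻ x in ball (0 : E n) 1, ENNReal.ofReal (K / (n * K - p * (K - 1))) *
        ENNReal.ofReal ((n - p + p / Kx (G x)) * ‖G x‖ ^ p) := lintegral_mono_ae hpt
    _ = ENNReal.ofReal (K / (n * K - p * (K - 1))) * ∫⁻ x in ball (0 : E n) 1,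
        ENNReal.ofReal ((n - p + p / Kx (G x)) * ‖G x‖ ^ p) := by
        rw [lintegral_const_mul' _ _ ENNReal.ofReal_ne_top]
    _ ≤ ENNReal.ofReal (K / (n * K - p * (K - 1))) * (n * volume (ball (0 : E n) 1)) := by
        gcongr
    _ = _ := by
        rw [← mul_assoc, ← ENNReal.ofReal_natCast, ← ENNReal.ofReal_mul (by positivity)]
        congr 2
        ring

end Pool.Agent.H56.QC
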